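import Mathlib
import Pool.Agent.R1.Herm

/-!
# Edge-deleting Laplacian sparsifiers with large spectral radius distortion

Let `G` be the join of a triangle `{0, 1, 2}` with `N` isolated vertices. Any two of the vertices
`0, 1, 2` have effective resistance `2 / (N + 3)`. Delete the edge `01`, and give the edge `02` the
weight `1 + ε (N + 3) / 2`. The result is a `(1 ± ε)`-sparsifier as soon as `2 / (N + 3) ≤ ε`; its
adjacency matrix has largest eigenvalue at least `1 + ε (N + 3) / 2`, while the largest eigenvalue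
of `G` is at most `√(2m) = √(6N + 6)`.
-/

set_option autoImplicit false

open Matrix Finset

namespace Pool.Agent.Results.MP_7ca01f_co.EdgeDeletingDistortion

/-- the largest eigenvalue of a real (symmetric) matrix: the supremum of its set of eigenvalues -/
noncomputable def lam1 {V : Type*} [Fintype V] [DecidableEq V] (A : Matrix V V ℝ) : ℝ :=
  sSup {μ : ℝ | Module.End.HasEigenvalue (Matrix.toLin' A) μ}

/-- the Laplacian `D - A` of a weighted graph with weighted adjacency matrix `A` -/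
def lap {V : Type*} [Fintype V] [DecidableEq V] (A : Matrix V V ℝ) : Matrix V V ℝ :=
  Matrix.diagonal (fun u => ∑ v, A u v) - A

/-- `W` is the weighted adjacency matrix of an edge-deleting `(1 ± ε)`-Laplacian sparsifier of `G`:
it is symmetric with nonnegative entries, its positive entries are at edges of `G`, at least one
edge of `G` has weight `0`, and the two Laplacian quadratic forms agree up to a factor `1 ± ε`. -/
structure IsEdgeDeletingSparsifier {V : Type*} [Fintype V] [DecidableEq V] (G : SimpleGraph V)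
    [DecidableRel G.Adj] (ε : ℝ) (W : Matrix V V ℝ) : Prop where
  symm : Wᵀ = W
  nonneg : ∀ u v, 0 ≤ W u v
  support : ∀ u v, W u v ≠ 0 → G.Adj u v
  deletes : ∃ u v, G.Adj u v ∧ W u v = 0
  lower : ∀ x : V → ℝ, (1 - ε) * (x ⬝ᵥ lap (G.adjMatrix ℝ) *ᵥ x) ≤ x ⬝ᵥ lap W *ᵥ x
  upper : ∀ x : V → ℝ, x ⬝ᵥ lap W *ᵥ x ≤ (1 + ε) * (x ⬝ᵥ lap (G.adjMatrix ℝ) *ᵥ x)

section general

variable {V : Type*} [Fintype V] [DecidableEq V]

lemma lam1_eq (A : Matrix V V ℝ) : lam1 A = Pool.Agent.R1.Herm.lamMax A := rfl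

lemma isHermitian_of_symm {A : Matrix V V ℝ} (h : Aᵀ = A) : A.IsHermitian := by
  unfold Matrix.IsHermitian
  rw [Matrix.conjTranspose_eq_transpose_of_trivial]
  exact h

lemma lap_quad (A : Matrix V V ℝ) (h : ∀ u v, A u v = A v u) (x : V → ℝ) :
    x ⬝ᵥ lap A *ᵥ x = (∑ u, ∑ v, A u v * (x u - x v) ^ 2) / 2 := by
  have h1 : x ⬝ᵥ lap A *ᵥ x = ∑ u, ∑ v, A u v * (x u ^ 2 - x u * x v) := by
    unfold lap
    simp only [dotProduct]
    refine Finset.sum_congr rfl fun u _ => ?_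
    rw [sub_mulVec, Pi.sub_apply, mulVec_diagonal, mulVec, dotProduct, mul_sub, Finset.sum_mul,
      Finset.mul_sum, Finset.mul_sum, ← Finset.sum_sub_distrib]
    refine Finset.sum_congr rfl fun v _ => ?_
    ring
  have h2 : ∑ u, ∑ v, A u v * (x u ^ 2 - x u * x v) =
      ∑ u, ∑ v, A u v * (x v ^ 2 - x u * x v) := by
    rw [Finset.sum_comm]
    refine Finset.sum_congr rfl fun u _ => Finset.sum_congr rfl fun v _ => ?_
    rw [h u v]
    ring
  have h3 : ∑ u, ∑ v, A u v * (x u - x v) ^ 2 =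
      ∑ u, ∑ v, A u v * (x u ^ 2 - x u * x v) + ∑ u, ∑ v, A u v * (x v ^ 2 - x u * x v) := by
    rw [← Finset.sum_add_distrib]
    refine Finset.sum_congr rfl fun u _ => ?_
    rw [← Finset.sum_add_distrib]
    refine Finset.sum_congr rfl fun v _ => ?_
    ring
  rw [h1, h3, ← h2]
  ring

lemma le_lam1 [Nonempty V] (A : Matrix V V ℝ) (h : Aᵀ = A) (x : V → ℝ) :
    x ⬝ᵥ A *ᵥ x ≤ lam1 A * ∑ i, x i ^ 2 := by
  have := Pool.Agent.R1.Herm.le_lamMax A (isHermitian_of_symm h) x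
  rw [lam1_eq]
  simpa using this

/-- the Frobenius bound -/
lemma lam1_le [Nonempty V] (A : Matrix V V ℝ) (h : Aᵀ = A) :
    lam1 A ≤ √(∑ u, ∑ v, A u v ^ 2) := by
  rw [lam1_eq]
  refine Pool.Agent.R1.Herm.lamMax_le A (isHermitian_of_symm h) _ fun x => ?_
  have h0 : 0 ≤ ∑ i, x i ^ 2 := Finset.sum_nonneg fun i _ => sq_nonneg _
  have h1 : (x ⬝ᵥ A *ᵥ x) ^ 2 ≤ (∑ u, ∑ v, A u v ^ 2) * (∑ i, x i ^ 2) ^ 2 := by
    have h2 : x ⬝ᵥ A *ᵥ x = ∑ p : V × V, A p.1 p.2 * (x p.1 * x p.2) := by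
      rw [Fintype.sum_prod_type]
      simp only [dotProduct, mulVec]
      refine Finset.sum_congr rfl fun u _ => ?_
      rw [Finset.mul_sum]
      refine Finset.sum_congr rfl fun v _ => ?_
      ring
    have h3 : ∑ u, ∑ v, A u v ^ 2 = ∑ p : V × V, A p.1 p.2 ^ 2 := by
      rw [Fintype.sum_prod_type]
    have h4 : (∑ i, x i ^ 2) ^ 2 = ∑ p : V × V, (x p.1 * x p.2) ^ 2 := by
      rw [Fintype.sum_prod_type, pow_two, Finset.sum_mul_sum]
      refine Finset.sum_congr rfl fun u _ => Finset.sum_congr rfl fun v _ => ?_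
      ring
    rw [h2, h3, h4]
    exact Finset.sum_mul_sq_le_sq_mul_sq _ _ _
  obtain ⟨S, hS⟩ : ∃ S : ℝ, S = ∑ u, ∑ v, A u v ^ 2 := ⟨_, rfl⟩
  have hS0 : 0 ≤ S := by
    rw [hS]
    exact Finset.sum_nonneg fun _ _ => Finset.sum_nonneg fun _ _ => sq_nonneg _
  rw [← hS] at h1 ⊢
  have h5 : x ⬝ᵥ A *ᵥ x ≤ √S * ∑ i, x i ^ 2 := by
    refine (le_abs_self _).trans ?_
    apply abs_le_of_sq_le_sq _ (by positivity)
    rw [mul_pow, Real.sq_sqrt hS0]
    exact h1
  simpa using h5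

end general

/-- the weighted adjacency matrix: `T` on three vertices, all of them joined to `N` isolated
vertices by edges of weight one -/
def blk (N : ℕ) (T : Matrix (Fin 3) (Fin 3) ℝ) : Matrix (Fin 3 ⊕ Fin N) (Fin 3 ⊕ Fin N) ℝ :=
  Matrix.fromBlocks T (Matrix.of fun _ _ => 1) (Matrix.of fun _ _ => 1) 0

lemma blk_symm (N : ℕ) (T : Matrix (Fin 3) (Fin 3) ℝ) (h : Tᵀ = T) : (blk N T)ᵀ = blk N T := by
  unfold blk
  rw [Matrix.fromBlocks_transpose, h]
  congr 1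

lemma blk_quad (N : ℕ) (T : Matrix (Fin 3) (Fin 3) ℝ) (h : Tᵀ = T) (x : Fin 3 ⊕ Fin N → ℝ) :
    x ⬝ᵥ lap (blk N T) *ᵥ x =
      (∑ a, ∑ b, T a b * (x (Sum.inl a) - x (Sum.inl b)) ^ 2) / 2 +
        ∑ i : Fin N, ∑ a : Fin 3, (x (Sum.inl a) - x (Sum.inr i)) ^ 2 := by
  rw [lap_quad (blk N T) (fun u v => congrFun (congrFun (blk_symm N T h) v) u) x]
  rw [Fintype.sum_sum_type]
  simp only [Fintype.sum_sum_type, blk, Matrix.fromBlocks_apply₁₁, Matrix.fromBlocks_apply₁₂,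
    Matrix.fromBlocks_apply₂₁, Matrix.fromBlocks_apply₂₂, Matrix.of_apply, one_mul,
    Matrix.zero_apply, zero_mul, Finset.sum_const_zero, add_zero, Finset.sum_add_distrib]
  have h1 : ∑ a : Fin 3, ∑ i : Fin N, (x (Sum.inl a) - x (Sum.inr i)) ^ 2 =
      ∑ i : Fin N, ∑ a : Fin 3, (x (Sum.inl a) - x (Sum.inr i)) ^ 2 := Finset.sum_comm
  have h2 : ∑ i : Fin N, ∑ a : Fin 3, (x (Sum.inr i) - x (Sum.inl a)) ^ 2 =
      ∑ i : Fin N, ∑ a : Fin 3, (x (Sum.inl a) - x (Sum.inr i)) ^ 2 :=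
    Finset.sum_congr rfl fun _ _ => Finset.sum_congr rfl fun _ _ => by ring
  rw [h1, h2]
  ring

/-- the join of a triangle and `N` isolated vertices -/
def hub (N : ℕ) : SimpleGraph (Fin 3 ⊕ Fin N) where
  Adj x y := match x, y with
    | Sum.inl a, Sum.inl b => a ≠ b
    | Sum.inl _, Sum.inr _ => True
    | Sum.inr _, Sum.inl _ => True
    | Sum.inr _, Sum.inr _ => False
  symm := ⟨by
    rintro (a | a) (b | b) h
    · exact Ne.symm h
    · trivial
    · trivial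
    · exact h⟩
  loopless := ⟨by
    rintro (a | a) h
    · exact h rfl
    · exact h⟩

lemma hub_adj (N : ℕ) (inst : DecidableRel (hub N).Adj) :
    (hub N).adjMatrix ℝ = blk N !![0, 1, 1; 1, 0, 1; 1, 1, 0] := by
  ext x y
  rw [SimpleGraph.adjMatrix_apply]
  rcases x with a | a <;> rcases y with b | b
  · have e : (hub N).Adj (Sum.inl a) (Sum.inl b) ↔ a ≠ b := Iff.rfl
    simp only [e, blk, Matrix.fromBlocks_apply₁₁]
    fin_cases a <;> fin_cases b <;> simp
  · have e : (hub N).Adj (Sum.inl a) (Sum.inr b) ↔ True := Iff.rfl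
    simp only [e, blk, Matrix.fromBlocks_apply₁₂]
    simp
  · have e : (hub N).Adj (Sum.inr a) (Sum.inl b) ↔ True := Iff.rfl
    simp only [e, blk, Matrix.fromBlocks_apply₂₁]
    simp
  · have e : (hub N).Adj (Sum.inr a) (Sum.inr b) ↔ False := Iff.rfl
    simp only [e, blk, Matrix.fromBlocks_apply₂₂]
    simp

lemma hub_connected (N : ℕ) : (hub N).Connected := by
  have hr : ∀ x, (hub N).Reachable (Sum.inl 0) x := by
    rintro (a | a)
    · by_cases h : (0 : Fin 3) = a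
      · rw [h]
      · exact SimpleGraph.Adj.reachable (show (hub N).Adj (Sum.inl 0) (Sum.inl a) from h)
    · exact SimpleGraph.Adj.reachable (show (hub N).Adj (Sum.inl 0) (Sum.inr a) from trivial)
  have : Nonempty (Fin 3 ⊕ Fin N) := ⟨Sum.inl 0⟩
  exact ⟨fun x y => (hr x).symm.trans (hr y)⟩

/-- the weights on the triangle -/
def tri (c : ℝ) : Matrix (Fin 3) (Fin 3) ℝ := !![0, 0, c; 0, 0, 1; c, 1, 0]

lemma tri_symm (c : ℝ) : (tri c)ᵀ = tri c := by
  ext a b
  fin_cases a <;> fin_cases b <;> rfl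

lemma k3_symm : (!![0, 1, 1; 1, 0, 1; 1, 1, 0] : Matrix (Fin 3) (Fin 3) ℝ)ᵀ =
    !![0, 1, 1; 1, 0, 1; 1, 1, 0] := by
  ext a b
  fin_cases a <;> fin_cases b <;> rfl

lemma form_G (N : ℕ) (x : Fin 3 ⊕ Fin N → ℝ) (inst : DecidableRel (hub N).Adj) :
    x ⬝ᵥ lap ((hub N).adjMatrix ℝ) *ᵥ x =
      (x (Sum.inl 0) - x (Sum.inl 1)) ^ 2 + (x (Sum.inl 0) - x (Sum.inl 2)) ^ 2 +
      (x (Sum.inl 1) - x (Sum.inl 2)) ^ 2 +
        ∑ i : Fin N, ∑ a : Fin 3, (x (Sum.inl a) - x (Sum.inr i)) ^ 2 := by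
  rw [hub_adj, blk_quad _ _ k3_symm]
  congr 1
  simp [Fin.sum_univ_three]
  ring

lemma form_W (N : ℕ) (c : ℝ) (x : Fin 3 ⊕ Fin N → ℝ) :
    x ⬝ᵥ lap (blk N (tri c)) *ᵥ x =
      c * (x (Sum.inl 0) - x (Sum.inl 2)) ^ 2 +
      (x (Sum.inl 1) - x (Sum.inl 2)) ^ 2 +
        ∑ i : Fin N, ∑ a : Fin 3, (x (Sum.inl a) - x (Sum.inr i)) ^ 2 := by
  rw [blk_quad _ _ (tri_symm c)]
  congr 1
  simp [tri, Fin.sum_univ_three]
  ring

/-- the effective resistance between two vertices of the triangle -/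
lemma resist (N : ℕ) (p q r : ℝ) (y : Fin N → ℝ) :
    (N + 3 : ℝ) / 2 * (p - q) ^ 2 ≤ (p - q) ^ 2 + (p - r) ^ 2 + (q - r) ^ 2 +
      ∑ i : Fin N, ((p - y i) ^ 2 + (q - y i) ^ 2 + (r - y i) ^ 2) := by
  have h1 : ∑ i : Fin N, (p - q) ^ 2 / 2 ≤
      ∑ i : Fin N, ((p - y i) ^ 2 + (q - y i) ^ 2 + (r - y i) ^ 2) := by
    refine Finset.sum_le_sum fun i _ => ?_
    nlinarith [sq_nonneg (p + q - 2 * y i), sq_nonneg (r - y i)]
  rw [Finset.sum_const, Finset.card_univ, Fintype.card_fin, nsmul_eq_mul] at h1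
  nlinarith [sq_nonneg (p + q - 2 * r)]

lemma test_G (N : ℕ) : 1 ≤ lam1 (blk N !![0, 1, 1; 1, 0, 1; 1, 1, 0]) := by
  have h1 := le_lam1 (blk N !![0, 1, 1; 1, 0, 1; 1, 1, 0]) (blk_symm N _ k3_symm)
    (Sum.elim ![1, 1, 0] (fun _ => 0))
  generalize lam1 (blk N !![0, 1, 1; 1, 0, 1; 1, 1, 0]) = L at h1 ⊢
  simp [blk, dotProduct, mulVec, Fintype.sum_sum_type, Fin.sum_univ_three] at h1
  linarith

lemma test_W (N : ℕ) (c : ℝ) : c ≤ lam1 (blk N (tri c)) := by
  have h1 := le_lam1 (blk N (tri c)) (blk_symm N _ (tri_symm c))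
    (Sum.elim ![1, 0, 1] (fun _ => 0))
  generalize lam1 (blk N (tri c)) = L at h1 ⊢
  simp [blk, tri, dotProduct, mulVec, Fintype.sum_sum_type, Fin.sum_univ_three] at h1
  linarith

/-- Let `0 < ε < 1`. For every `C` there are a connected graph `G` and an edge-deleting
`(1 ± ε)`-Laplacian sparsifier of `G` with weighted adjacency matrix `W` such that
`|λ₁(W) - λ₁(G)| > C ε λ₁(G)`, and `λ₁(G) > 0`. -/
theorem result : ∀ ε : ℝ, 0 < ε → ε < 1 → ∀ C : ℝ,
    ∃ (V : Type) (_ : Fintype V) (_ : DecidableEq V) (G : SimpleGraph V)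
      (_ : DecidableRel G.Adj) (W : Matrix V V ℝ),
      G.Connected ∧ IsEdgeDeletingSparsifier G ε W ∧ 0 < lam1 (G.adjMatrix ℝ) ∧
      C * (ε * lam1 (G.adjMatrix ℝ)) < |lam1 W - lam1 (G.adjMatrix ℝ)| := by
  classical
  intro ε hε hε1 C
  obtain ⟨N, hN⟩ := exists_nat_gt ((12 * (|C| * ε + 1) / ε) ^ 2 + 2 / ε)
  have hC := abs_nonneg C
  have hN0 : (0 : ℝ) ≤ N := Nat.cast_nonneg N
  have hεinv : 0 < 2 / ε := by positivity
  have hN2 : 2 / ε < N := by
    have : 0 ≤ (12 * (|C| * ε + 1) / ε) ^ 2 := sq_nonneg _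
    linarith
  have hN3 : (12 * (|C| * ε + 1) / ε) ^ 2 < N := by linarith
  set c : ℝ := 1 + ε * ((N + 3) / 2) with hc
  have hc0 : 0 ≤ c := by positivity
  refine ⟨Fin 3 ⊕ Fin N, inferInstance, inferInstance, hub N, inferInstance, blk N (tri c),
    hub_connected N, ?_, ?_, ?_⟩
  · refine ⟨blk_symm N _ (tri_symm c), ?_, ?_, ⟨Sum.inl 0, Sum.inl 1, ?_, ?_⟩, ?_, ?_⟩
    · rintro (a | a) (b | b)
      · simp only [blk, Matrix.fromBlocks_apply₁₁]
        fin_cases a <;> fin_cases b <;> simp [tri, hc0]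
      · simp [blk]
      · simp [blk]
      · simp [blk]
    · rintro (a | a) (b | b) h
      · change a ≠ b
        rintro rfl
        apply h
        simp only [blk, Matrix.fromBlocks_apply₁₁]
        fin_cases a <;> simp [tri]
      · trivial
      · trivial
      · exact (h (by simp [blk])).elim
    · change (0 : Fin 3) ≠ 1
      decide
    · simp [blk, tri]
    · intro x
      have hG := form_G N x inferInstance
      have hW := form_W N c x
      have hr := resist N (x (Sum.inl 0)) (x (Sum.inl 1)) (x (Sum.inl 2))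
        (fun i => x (Sum.inr i))
      simp only [Fin.sum_univ_three] at hG hW
      rw [← hG] at hr
      set Q := x ⬝ᵥ lap ((hub N).adjMatrix ℝ) *ᵥ x with hQ
      have h1 : (x (Sum.inl 0) - x (Sum.inl 1)) ^ 2 ≤ ε * Q := by
        have h2 : 1 ≤ ε * ((N + 3 : ℝ) / 2) := by
          rw [div_lt_iff₀ hε] at hN2
          nlinarith
        calc (x (Sum.inl 0) - x (Sum.inl 1)) ^ 2
            ≤ (ε * ((N + 3 : ℝ) / 2)) * (x (Sum.inl 0) - x (Sum.inl 1)) ^ 2 :=
              le_mul_of_one_le_left (sq_nonneg _) h2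
          _ = ε * ((N + 3 : ℝ) / 2 * (x (Sum.inl 0) - x (Sum.inl 1)) ^ 2) := by ring
          _ ≤ ε * Q := mul_le_mul_of_nonneg_left hr hε.le
      have h3 : 0 ≤ ε * ((N + 3) / 2) * (x (Sum.inl 0) - x (Sum.inl 2)) ^ 2 := by positivity
      rw [hW]
      rw [hc]
      nlinarith
    · intro x
      have hG := form_G N x inferInstance
      have hW := form_W N c x
      have hr := resist N (x (Sum.inl 0)) (x (Sum.inl 2)) (x (Sum.inl 1))
        (fun i => x (Sum.inr i))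
      simp only [Fin.sum_univ_three] at hG hW
      have hr' : (N + 3 : ℝ) / 2 * (x (Sum.inl 0) - x (Sum.inl 2)) ^ 2 ≤
          x ⬝ᵥ lap ((hub N).adjMatrix ℝ) *ᵥ x := by
        rw [hG]
        refine hr.trans (le_of_eq ?_)
        have h1 : ∑ i : Fin N, ((x (Sum.inl 0) - x (Sum.inr i)) ^ 2 +
            (x (Sum.inl 2) - x (Sum.inr i)) ^ 2 + (x (Sum.inl 1) - x (Sum.inr i)) ^ 2) =
            ∑ i : Fin N, ((x (Sum.inl 0) - x (Sum.inr i)) ^ 2 +
            (x (Sum.inl 1) - x (Sum.inr i)) ^ 2 + (x (Sum.inl 2) - x (Sum.inr i)) ^ 2) :=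
          Finset.sum_congr rfl fun _ _ => by ring
        rw [h1]
        ring
      set Q := x ⬝ᵥ lap ((hub N).adjMatrix ℝ) *ᵥ x with hQ
      have h1 : ε * ((N + 3) / 2) * (x (Sum.inl 0) - x (Sum.inl 2)) ^ 2 ≤ ε * Q := by
        rw [mul_assoc]
        exact mul_le_mul_of_nonneg_left hr' hε.le
      have h3 := sq_nonneg (x (Sum.inl 0) - x (Sum.inl 1))
      rw [hW, hc]
      nlinarith
  · have h1 := test_G N
    rw [hub_adj]
    linarith
  · have h2 := test_W N c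
    have h3 := lam1_le ((hub N).adjMatrix ℝ) (hub N).isSymm_adjMatrix
    have h4 : ∑ u, ∑ v, ((hub N).adjMatrix ℝ) u v ^ 2 = 6 * N + 6 := by
      rw [hub_adj]
      simp [blk, Fintype.sum_sum_type, Fin.sum_univ_three]
      ring
    rw [h4] at h3
    set r : ℝ := √(6 * N + 6) with hr
    have hr2 : r ^ 2 = 6 * N + 6 := Real.sq_sqrt (by positivity)
    have hr0 : 0 ≤ r := Real.sqrt_nonneg _
    have hr3 : 12 * (|C| * ε + 1) / ε ≤ r := by
      apply Real.le_sqrt_of_sq_le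
      linarith
    rw [div_le_iff₀ hε] at hr3
    have hr4 : 12 * (|C| * ε + 1) * r ≤ r * ε * r := mul_le_mul_of_nonneg_right hr3 hr0
    set L := lam1 ((hub N).adjMatrix ℝ) with hL
    have hL0 : 0 ≤ L := by
      have h1 := test_G N
      rw [hL, hub_adj]
      linarith
    have h5 : C * (ε * L) ≤ |C| * (ε * r) := by
      calc C * (ε * L) ≤ |C| * (ε * L) := mul_le_mul_of_nonneg_right (le_abs_self C) (by positivity)
        _ ≤ |C| * (ε * r) := mul_le_mul_of_nonneg_left (mul_le_mul_of_nonneg_left h3 hε.le) hC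
    have h6 : c - r ≤ |lam1 (blk N (tri c)) - L| := by
      refine le_trans ?_ (le_abs_self _)
      linarith
    refine lt_of_le_of_lt h5 (lt_of_lt_of_le ?_ h6)
    have h7 : r * ε * r = ε * (6 * N + 6) := by rw [← hr2]; ring
    rw [h7] at hr4
    rw [hc]
    nlinarith

end Pool.Agent.Results.MP_7ca01f_co.EdgeDeletingDistortion
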